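import Mathlib.NumberTheory.LegendreSymbol.Basic
import Mathlib.Data.Nat.Choose.Basic
import Mathlib.Data.Nat.ModEq

/-!
# Residues of binomial coefficients along arithmetic progressions: the answer is negative

For all positive integers `a > b` and every prime `p` with `p ∣ a - b` and `gcd(p, a) = 1`, the
binomial coefficients `C(a n - 1, b n) = ((a - b) / a) C(a n, b n)`, `n ≥ 1`, are all divisible by `p`.
So for `α = -1`, `β = 0` none of the residues `1, ..., p - 1` modulo `p` is ever attained. For every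
prime `p` the choice `a = p + 1`, `b = 1` is of this kind.
-/

namespace Pool.Agent.Results.MP_859259_nt.MissedResidues

/-- `B(n) = C(a n + α, b n + β)`, for integers `α`, `β`. -/
def B (a b : ℕ) (α β : ℤ) (n : ℕ) : ℕ :=
  Nat.choose ((a : ℤ) * n + α).toNat ((b : ℤ) * n + β).toNat

theorem key (a b p n : ℕ) (hb : b < a) (_hp : p.Prime) (hd : p ∣ a - b) (hc : Nat.Coprime p a)
    (hn : 0 < n) : p ∣ B a b (-1) 0 n := by
  have ha : 0 < a := by omega
  have han : 0 < a * n := Nat.mul_pos ha hn
  have e1 : ((a : ℤ) * n + (-1)).toNat = a * n - 1 := by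
    have : (1 : ℤ) ≤ (a : ℤ) * n := by exact_mod_cast han
    have h2 : ((a * n - 1 : ℕ) : ℤ) = (a : ℤ) * n - 1 := by
      rw [Nat.cast_sub (by omega)]; push_cast; ring
    rw [← sub_eq_add_neg, ← h2, Int.toNat_natCast]
  have e2 : ((b : ℤ) * n + 0).toNat = b * n := by
    rw [add_zero]
    exact_mod_cast Int.toNat_natCast (b * n)
  unfold B
  rw [e1, e2]
  have h := Nat.choose_mul_succ_eq (a * n - 1) (b * n)
  have h1 : a * n - 1 + 1 = a * n := by omega
  rw [h1] at h
  have h3 : a * n - b * n = (a - b) * n := by rw [Nat.sub_mul]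
  rw [h3] at h
  have h4 : (a * n - 1).choose (b * n) * a = (a * n).choose (b * n) * (a - b) := by
    apply Nat.eq_of_mul_eq_mul_right hn
    calc (a * n - 1).choose (b * n) * a * n = (a * n - 1).choose (b * n) * (a * n) := by ring
      _ = (a * n).choose (b * n) * ((a - b) * n) := h
      _ = (a * n).choose (b * n) * (a - b) * n := by ring
  have h5 : p ∣ (a * n - 1).choose (b * n) * a := by
    rw [h4]; exact Dvd.dvd.mul_left hd _
  exact (Nat.Coprime.dvd_mul_right hc).1 h5

/-- For every prime `p` there are positive integers `a > b` with `gcd(p, a) = 1` and integers `α, β`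
such that `0 ≤ b n + β ≤ a n + α` for all `n ≥ 1` and no residue `r` with `0 < r < p` is attained by
`C(a n + α, b n + β)` modulo `p`, for any `n ≥ 1`. -/
theorem result : ∀ p : ℕ, p.Prime → ∃ a b : ℕ, ∃ α β : ℤ, 0 < b ∧ b < a ∧ Nat.Coprime p a ∧
    (∀ n : ℕ, 0 < n → (0 : ℤ) ≤ b * n + β ∧ (b * n + β : ℤ) ≤ a * n + α) ∧
    ∀ r : ℕ, 0 < r → r < p → ∀ n : ℕ, 0 < n → ¬ B a b α β n ≡ r [MOD p] := by
  intro p hp
  refine ⟨p + 1, 1, -1, 0, one_pos, by have := hp.pos; omega, by simp, fun n hn => ⟨?_, ?_⟩,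
    fun r hr hrp n hn hmod => ?_⟩
  · positivity
  · have h0 : 0 < p := hp.pos
    have h1 : (1 : ℤ) ≤ (p : ℤ) * n := by exact_mod_cast Nat.mul_pos h0 hn
    push_cast
    linarith
  · have hk := key (p + 1) 1 p n (by have := hp.pos; omega) hp (by simp) (by simp) hn
    have h0 : r ≡ 0 [MOD p] := hmod.symm.trans ((Nat.modEq_zero_iff_dvd).2 hk)
    have h1 : p ∣ r := (Nat.modEq_zero_iff_dvd).1 h0
    exact absurd (Nat.le_of_dvd hr h1) (by omega)

end Pool.Agent.Results.MP_859259_nt.MissedResidues
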